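import Mathlib

namespace Pool.Agent.Results.MP_49f1ce_an.Counter

open Set Filter Topology

section
variable {Y : Type} [TopologicalSpace Y] (σ : Y → Y) (r : Y → ℝ)

/-- the identification `(x, s) ∼ (σ x, s - r x)` on `Y × ℝ`. -/
def Rel (p q : Y × ℝ) : Prop := q = (σ p.1, p.2 - r p.1)

/-- the suspension flow on the quotient. -/
def flow (t : ℝ) : Quot (Rel σ r) → Quot (Rel σ r) :=
  Quot.map (fun p => (p.1, p.2 + t)) (by rintro p _ rfl; simp only [Rel]; congr 1; ring)

def Mixing : Prop := ∀ U V : Set (Quot (Rel σ r)), IsOpen U → IsOpen V → U.Nonempty → V.Nonempty →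
  ∃ T, ∀ t ≥ T, (flow σ r t '' U ∩ V).Nonempty

def Transitive : Prop := ∀ U V : Set Y, IsOpen U → IsOpen V → U.Nonempty → V.Nonempty →
  ∃ n ≥ 1, (σ^[n] '' U ∩ V).Nonempty

def Cohom (f g : Y → ℝ) : Prop := ∃ h : Y → ℝ, Continuous h ∧ ∀ x, f x - g x = h (σ x) - h x
end

def LocConst {X : Set (ℤ → Bool)} (g : X → ℝ) : Prop :=
  ∃ N : ℕ, ∀ x y : X, (∀ i : ℤ, |i| ≤ N → x.1 i = y.1 i) → g x = g y

def S : Set (ℤ → Bool) := {x | ∀ i (n : ℕ), ¬ Even (Nat.log 2 n) → x i = false ∨ x (i + n) = false}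

lemma co (i : ℤ) : Continuous fun y : S => y.1 i := (continuous_apply i).comp continuous_subtype_val

def sh (c : ℤ) (y : S) : S := ⟨fun i => y.1 (i + c), fun i n h => by
  have := y.2 (i + c) n h
  rwa [add_right_comm] at this⟩

lemma sh_cont (c : ℤ) : Continuous (sh c) := (continuous_pi fun i => co (i + c)).subtype_mk _

lemma sh_iter (n : ℕ) (y : S) (i : ℤ) : ((sh 1)^[n] y).1 i = y.1 (i + n) := by
  induction n generalizing i with
  | zero => simp
  | succ n ih =>
    rw [Function.iterate_succ_apply']; exact (ih (i + 1)).trans (congrArg y.1 (by push_cast; ring))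

noncomputable def tm (k : ℕ) (x : S) : ℝ := if x.1 0 ∧ x.1 (k + 1) then (1 / 2) ^ k / 8 else 0
noncomputable def r (x : S) : ℝ := 1 + ∑' k, tm k x

lemma tm_b (k : ℕ) (x : S) : 0 ≤ tm k x ∧ tm k x ≤ (1 / 2) ^ k / 8 := by
  unfold tm; split_ifs <;> constructor <;> first | rfl | positivity

lemma hs : HasSum (fun k : ℕ => (1 / 2 : ℝ) ^ k / 8) (2 / 8) := hasSum_geometric_two.div_const 8

lemma sm (x : S) : Summable fun k => tm k x :=
  hs.summable.of_nonneg_of_le (fun k => (tm_b k x).1) fun k => (tm_b k x).2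

lemma r_b (x : S) : 1 ≤ r x ∧ r x ≤ 5 / 4 := by
  have : 0 ≤ ∑' k, tm k x := tsum_nonneg fun k => (tm_b k x).1
  have := hasSum_le (fun k => (tm_b k x).2) (sm x).hasSum hs
  unfold r; constructor <;> linarith

lemma r_cont : Continuous r := continuous_const.add <| continuous_tsum (fun k =>
  (continuous_of_discreteTopology (f := fun p : Bool × Bool =>
    if p.1 ∧ p.2 then (1 / 2 : ℝ) ^ k / 8 else 0)).comp ((co 0).prodMk (co (k + 1))))
  hs.summable fun k x => by rw [Real.norm_of_nonneg (tm_b k x).1]; exact (tm_b k x).2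

noncomputable def τ : S × ℝ ≃ₜ S × ℝ where
  toFun p := (sh 1 p.1, p.2 - r p.1)
  invFun p := (sh (-1) p.1, p.2 + r (sh (-1) p.1))
  left_inv p := by
    have : sh (-1) (sh 1 p.1) = p.1 := by ext i; simp [sh]
    simp [this]
  right_inv p := by
    have : sh 1 (sh (-1) p.1) = p.1 := by ext i; simp [sh]
    simp [this]
  continuous_toFun := by have := sh_cont; have := r_cont; fun_prop
  continuous_invFun := by have := sh_cont; have := r_cont; fun_prop

lemma τ_pow (n : ℕ) (q : S × ℝ) : ((τ ^ n) q).1.1 0 = q.1.1 n ∧ q.2 - 5 / 4 * n ≤ ((τ ^ n) q).2 ∧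
    ((τ ^ n) q).2 ≤ q.2 - n := by
  induction n generalizing q with
  | zero => simp
  | succ n ih =>
    obtain ⟨a, b, c⟩ := ih (τ q)
    have e : (τ q).2 = q.2 - r q.1 := rfl
    have := r_b q.1
    rw [pow_succ, Homeomorph.mul_apply]
    push_cast
    exact ⟨a, by linarith, by linarith⟩

def pt (j : ℕ) (a b : Bool) (m : ℤ) : S :=
  ⟨fun i => (a && decide (i + m = 0)) || (b && decide (i + m = (2 ^ (2 * j) : ℕ))), fun i n h => by
    by_contra hh
    have h0 : n ≠ 0 := by rintro rfl; simp at h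
    have h1 : n ≠ 2 ^ (2 * j) := by rintro rfl; simp [Nat.log_pow] at h
    generalize 2 ^ (2 * j) = k at *
    cases a <;> cases b <;> simp at hh <;> omega⟩

lemma not_mixing : ¬ Mixing (sh 1) r := by
  intro h
  let B : Set (S × ℝ) := {p | p.1.1 0 = true ∧ p.2 ∈ Ioo 0 (1 / 10)}
  have hB : IsOpen B := ((isOpen_discrete {true}).preimage ((co 0).comp continuous_fst)).inter
    (isOpen_Ioo.preimage continuous_snd)
  let W : S × ℝ → Prop := fun p => ∃ n : ℤ, (τ ^ n) p ∈ B
  have hW : ∀ p q, Rel (sh 1) r p q → W p = W q := by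
    rintro p _ rfl
    refine propext ⟨fun ⟨n, hn⟩ => ⟨n - 1, ?_⟩, fun ⟨n, hn⟩ => ⟨n + 1, ?_⟩⟩
    · rwa [← sub_add_cancel n 1, zpow_add_one] at hn
    · rwa [zpow_add_one]
  have ho : IsOpen {q | Quot.lift W hW q} := by
    refine isOpen_coinduced.2 ?_
    show IsOpen {p | ∃ n : ℤ, (τ ^ n) p ∈ B}
    rw [setOf_exists]
    exact isOpen_iUnion fun n => hB.preimage (τ ^ n).continuous
  have hn : {q | Quot.lift W hW q}.Nonempty :=
    ⟨Quot.mk _ (pt 0 true false 0, 1 / 20), 0, by simp [pt], by norm_num⟩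
  obtain ⟨T, hT⟩ := h _ _ ho ho hn hn
  obtain ⟨j, hj⟩ := pow_unbounded_of_one_lt T (by norm_num : (1 : ℝ) < 4)
  have h4 : (1 : ℝ) ≤ 4 ^ j := one_le_pow₀ (by norm_num)
  obtain ⟨_, ⟨⟨p⟩, ⟨a, ha⟩, rfl⟩, b, hb⟩ := hT (3 * 4 ^ j) (by linarith)
  let tr : S × ℝ ≃ₜ S × ℝ := (Homeomorph.refl S).prodCongr (Homeomorph.addRight (3 * 4 ^ j))
  have hc : Commute τ tr := Homeomorph.ext fun p => Prod.ext rfl (sub_add_eq_add_sub ..).symm
  have e : (τ ^ (b - a)) (tr ((τ ^ a) p)) ∈ B := by
    rw [← Homeomorph.mul_apply, ← Homeomorph.mul_apply, (hc.zpow_left _).eq, mul_assoc, ← zpow_add,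
      sub_add_cancel, ← (hc.zpow_left _).eq]
    exact hb
  generalize (τ ^ a) p = q at ha e
  have e2 : (tr q).2 = q.2 + 3 * 4 ^ j := rfl
  obtain ⟨n, hn | hn⟩ := Int.eq_nat_or_neg (b - a) <;> rw [hn] at e
  · rw [zpow_natCast] at e
    obtain ⟨c1, c2, c3⟩ := τ_pow n (tr q)
    have l1 : 2 ^ (2 * j + 1) ≤ n := by
      have : (2 : ℝ) ^ (2 * j + 1) ≤ n := by
        rw [pow_succ, pow_mul]; norm_num; linarith [ha.2.1, e.2.2]
      exact_mod_cast this
    have l2 : n < 2 ^ (2 * j + 1 + 1) := by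
      have : n < (2 : ℝ) ^ (2 * j + 1 + 1) := by
        rw [pow_succ, pow_succ, pow_mul]; norm_num; linarith [ha.2.2, e.2.1]
      exact_mod_cast this
    rcases q.1.2 0 n (by rw [Nat.log_eq_of_pow_le_of_lt_pow l1 l2]; simp) with h | h
    · simp [ha.1] at h
    · rw [zero_add] at h
      exact absurd (e.1.symm.trans (c1.trans h)) (by simp)
  · have c3 := (τ_pow n ((τ ^ (-(n : ℤ))) (tr q))).2.2
    rw [← Homeomorph.mul_apply, ← zpow_natCast, ← zpow_add, add_neg_cancel, zpow_zero,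
      Homeomorph.one_apply] at c3
    linarith [ha.2.1, e.2.2, n.cast_nonneg (α := ℝ)]

lemma not_cohom (g : S → ℝ) (hg : LocConst g) : ¬ Cohom (sh 1) r g := by
  rintro ⟨h, hc, e⟩
  obtain ⟨N, hN⟩ := hg
  have hN2 : 2 * N < 2 ^ (2 * N) := Nat.lt_two_pow_self
  let F : ℤ → ℝ := fun m =>
    h (pt N true true m) - h (pt N true false m) - h (pt N false true m) + h (pt N false false m)
  have hs : ∀ a b m, sh 1 (pt N a b m) = pt N a b (m + 1) := fun a b m => by
    ext i; simp only [sh, pt, add_assoc, add_comm 1 m]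
  have r1 : ∀ a b m, (a = false ∨ b = false ∨ m ≠ 0) → r (pt N a b m) = 1 := fun a b m hm => by
    have : ∀ k, tm k (pt N a b m) = 0 := fun k => if_neg (by
      simp only [pt]; generalize 2 ^ (2 * N) = l
      cases a <;> cases b <;> simp at hm ⊢ <;> omega)
    simp [r, this]
  have hF : ∀ m, F (m + 1) - F m = r (pt N true true m) - 1 := fun m => by
    have e1 := e (pt N true true m); have e2 := e (pt N true false m)
    have e3 := e (pt N false true m); have e4 := e (pt N false false m)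
    rw [hs] at e1 e2 e3 e4
    rw [r1 _ _ _ (by simp)] at e2 e3 e4
    simp only [F]
    by_cases hm : |m| ≤ N
    · have k : ∀ a, g (pt N a true m) = g (pt N a false m) := fun a => hN _ _ fun i hi => by
        simp only [pt]; generalize 2 ^ (2 * N) = l at *
        rw [abs_le] at hm hi; simp; omega
      linarith [k true, k false]
    · have k : ∀ b, g (pt N true b m) = g (pt N false b m) := fun a => hN _ _ fun i hi => by
        simp only [pt]
        rw [abs_le] at hm hi; simp; omega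
      linarith [k true, k false]
  have lim : Tendsto F cofinite (𝓝 0) := by
    have : ∀ a b, Tendsto (fun m => h (pt N a b m)) cofinite (𝓝 (h (pt N false false 0))) :=
      fun a b => (hc.tendsto _).comp (tendsto_subtype_rng.2 (tendsto_pi_nhds.2 fun i =>
        tendsto_const_nhds.congr' (by
          filter_upwards [eventually_cofinite_ne (-i), eventually_cofinite_ne ((2 ^ (2 * N) : ℕ) - i)]
            with m h1 h2
          simp only [pt]; generalize 2 ^ (2 * N) = l at *
          cases a <;> cases b <;> simp <;> omega)))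
    simpa using (((this true true).sub (this true false)).sub (this false true)).add
      (this false false)
  have cst : ∀ u : ℕ → ℤ, Function.Injective u → (∀ k, F (u (k + 1)) = F (u k)) → F (u 0) = 0 :=
    fun u hu hk => tendsto_nhds_unique (tendsto_const_nhds.congr fun k => by
      induction k with
      | zero => rfl
      | succ k ih => exact ih.trans (hk k).symm)
      (lim.comp (Nat.cofinite_eq_atTop ▸ hu.tendsto_cofinite))
  have a1 := cst (fun k => k + 1) (fun a b h => by simpa using h) fun k => by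
    have := hF (k + 1); rw [r1 _ _ _ (by omega)] at this; push_cast; linarith
  have a2 := cst (fun k => -k) (fun a b h => by simpa using h) fun k => by
    have := hF (-(k + 1 : ℕ)); rw [r1 _ _ _ (by omega), show -((k + 1 : ℕ) : ℤ) + 1 = -k by omega] at this
    linarith
  have a3 := hF 0
  have a4 := (sm (pt N true true 0)).le_tsum (2 ^ (2 * N) - 1) fun k _ => (tm_b k _).1
  have a5 : 0 < tm (2 ^ (2 * N) - 1) (pt N true true 0) := by
    unfold tm
    rw [if_pos (by simp only [pt]; generalize 2 ^ (2 * N) = l at *; simp; omega)]; positivity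
  simp only [Nat.cast_zero, neg_zero] at a1 a2
  unfold r at a3; linarith

lemma cyl {u : S} {s : Set S} (h : s ∈ 𝓝 u) :
    ∃ L : ℕ, ∀ y : S, (∀ i : ℤ, -L ≤ i → i ≤ L → y.1 i = u.1 i) → y ∈ s := by
  obtain ⟨t, ht, hs⟩ := (mem_nhds_subtype _ _ _).1 h
  rw [nhds_pi, Filter.mem_pi] at ht
  obtain ⟨I, hI, r, hr, hsub⟩ := ht
  obtain ⟨b, hb⟩ := (hI.image Int.natAbs).bddAbove
  exact ⟨b, fun y hy => hs (hsub fun i hi => by
    have := hb ⟨i, hi, rfl⟩
    rw [hy i (by omega) (by omega)]; exact mem_of_mem_nhds (hr i))⟩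

lemma trans : Transitive (sh 1) := by
  rintro U V hU hV ⟨u, hu⟩ ⟨v, hv⟩
  obtain ⟨L1, h1⟩ := cyl (hU.mem_nhds hu)
  obtain ⟨L2, h2⟩ := cyl (hV.mem_nhds hv)
  obtain ⟨L, a1, a2⟩ : ∃ L, L1 ≤ L ∧ L2 ≤ L := ⟨L1 + L2, by omega, by omega⟩
  have hl : 2 * (2 * L) < 2 ^ (2 * (2 * L)) := Nat.lt_two_pow_self
  have hk : ∀ n, 2 ^ (2 * (2 * L)) ≤ n → n < 2 ^ (2 * (2 * L)) * 2 → Even (Nat.log 2 n) :=
    fun n b1 b2 => by rw [Nat.log_eq_of_pow_le_of_lt_pow b1 b2]; simp
  generalize 2 ^ (2 * (2 * L)) = K at hl hk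
  refine ⟨K + 2 * L, by omega, _, ⟨⟨fun i => if i ≤ L then (if -L ≤ i then u.1 i else false) else
    if K + L ≤ i ∧ i ≤ K + 3 * L then v.1 (i - (K + 2 * L)) else false, fun i n hn => ?_⟩,
    h1 _ fun i b1 b2 => ?_, rfl⟩, h2 _ fun i b1 b2 => ?_⟩
  · beta_reduce
    split_ifs
    any_goals omega
    any_goals (first | exact Or.inl rfl | exact Or.inr rfl)
    · exact u.2 i n hn
    · exact absurd (hk n (by omega) (by omega)) hn
    · have := v.2 (i - (K + 2 * L)) n hn
      rwa [sub_add_eq_add_sub] at this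
  · show ite _ _ _ = _
    rw [if_pos (by omega), if_pos (by omega)]
  · rw [sh_iter]
    show ite _ _ _ = _
    rw [if_neg (by omega), if_pos (by omega)]; exact congrArg v.1 (by omega)

theorem result : ∃ (X : Set (ℤ → Bool)) (σ : X → X) (r : X → ℝ), X.Nonempty ∧ IsClosed X ∧
    (∀ x i, (σ x).1 i = x.1 (i + 1)) ∧ Function.Surjective σ ∧ Transitive σ ∧
    {x | ∃ n ≥ 1, σ^[n] x = x}.Finite ∧ Continuous r ∧ (∀ x, 0 < r x) ∧ ¬ Mixing σ r ∧
    (∀ c : ℝ, ¬ Cohom σ r fun _ => c) ∧ ∀ g, LocConst g → ¬ Cohom σ r g := by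
  refine ⟨S, sh 1, r, ⟨_, (pt 0 false false 0).2⟩, ?_, fun _ _ => rfl,
    fun x => ⟨sh (-1) x, by ext i; simp [sh]⟩, trans, (finite_singleton (pt 0 false false 0)).subset ?_,
    r_cont, fun x => by linarith [(r_b x).1], not_mixing,
    fun c => not_cohom _ ⟨0, fun _ _ _ => rfl⟩, not_cohom⟩
  · simp only [S, setOf_forall]
    exact isClosed_iInter fun i => isClosed_iInter fun n => isClosed_iInter fun _ =>
      (isClosed_eq (continuous_apply i) continuous_const).union
        (isClosed_eq (continuous_apply (i + n : ℤ)) continuous_const)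
  · rintro x ⟨n, hn, e⟩
    have p : ∀ i, x.1 (i + n) = x.1 i := fun i => by rw [← sh_iter, e]
    ext i
    show x.1 i = false
    by_cases h : Even (Nat.log 2 n)
    · have := x.2 i (n * 2) (by rw [Nat.log_mul_base (by norm_num) (by omega)]; exact fun h' => Nat.even_add_one.1 h' h)
      rwa [show i + (n * 2 : ℕ) = i + n + n by omega, p, p, or_self] at this
    · have := x.2 i n h
      rwa [p, or_self] at this

end Pool.Agent.Results.MP_49f1ce_an.Counter
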